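import Pool.Agent.TH894.CW3

/-!
# Autocorrelations of the Möbius function with almost all shifts which arise from an arbitrary integer by a
bounded number of changes of digits

The exponential sum bounds for the Möbius function (Davenport's theorem with arbitrary powers of the
logarithm) and the bound for its Fourier transform over the frequencies with few changes of digits are from
the starting files (`Pool.Agent.H807R2.Dav`, `Pool.Agent.H373R2.T7`, `Pool.Agent.W93.LM`).
-/

set_option autoImplicit false

namespace Pool.Agent.Results.MP_c59857_nt.FewDigitChanges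

open Finset

/-- The Möbius function, with complex values. -/
noncomputable def mu (n : ℕ) : ℂ := ((ArithmeticFunction.moebius n : ℤ) : ℂ)

/-- The digit number `i` (counted from the right, beginning with `0`) of `n` in base `b`. -/
def digit (b i n : ℕ) : ℕ := n / b ^ i % b

/-- The number which arises from the number `N` with at most `K` digits in base `b`, if for every `i ∈ S`
the digit number `i` is replaced by `f i`. -/
def change (b K N : ℕ) (f : ℕ → ℕ) (S : Finset ℕ) : ℕ :=
  ∑ i ∈ range K, (if i ∈ S then f i else digit b i N) * b ^ i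

/-- The positions `1, ..., K - 1` of a number with at most `K` digits are divided into three windows: the
first and the last `h` positions and the rest. -/
def window (h K : ℕ) (q : Fin 3) : Finset ℕ :=
  if q = 0 then Ico 1 (1 + h) else if q = 1 then Ico (1 + h) (K - h) else Ico (K - h) K

/-- The choices of `r 0`, `r 1`, `r 2` positions in the three windows. -/
def choices (h K : ℕ) (r : Fin 3 → ℕ) : Finset (Fin 3 → Finset ℕ) :=
  Fintype.piFinset (fun q => powersetCard (r q) (window h K q))

open Classical in
/-- The number of the choices for which the number obtained by changing the digits of `N` at the chosen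
positions (according to `f`) does not have the property `E`. -/
noncomputable def exceptions (b h K N : ℕ) (f : ℕ → ℕ) (r : Fin 3 → ℕ) (E : ℕ → Prop) : ℕ :=
  ((choices h K r).filter (fun S => ¬ E (change b K N f (S 0 ∪ S 1 ∪ S 2)))).card

/-- For every base `b ≥ 2` there are `R`, `A ≥ 1` with the following property. Let `ε > 0` and `L` be given.
Then there is a `t` such that for every sufficiently large `K` and every integer `0 ≤ N < b ^ K` the
following holds.

Let `h = A (⌊log_b (K + 1)⌋ + 1)`, and divide the positions `1, ..., K - 1` of the digits of `N` (leading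
zeros are added) into three windows: the first `h` and the last `h` of them, and the rest. Let `r 0`,
`r 1`, `r 2` be integers between `t` and `1 / R` times the length of the respective window (by the first
assertion one can take `r 0 = r 1 = r 2 = t`, so that only the bounded number `3 t` of the digits are
changed). Prescribe for every position a digit `f i` different from the digit of `N`. Let `g l : ℕ → ℂ`,
`l < L`, be arbitrary functions bounded by `1` (for example products `∏ i, μ (n + α i) ^ ε i` with arbitrary
shifts `α i`, of the size of `b ^ K`, say, and exponents `ε i ∈ {1, 2}`). If `r 0`, `r 1`, `r 2` positions in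
the three windows are chosen, and the digits of `N` at these positions are replaced, then for all but at most
a proportion `ε` of the choices of the positions the number `α` obtained satisfies
`|∑ n ≤ X, g l n * μ (n + α)| ≤ ε b ^ K` for all `l < L` and all `X ≤ b ^ K`. -/
theorem result (b : ℕ) (hb : 2 ≤ b) : ∃ R A : ℕ, 1 ≤ R ∧ 1 ≤ A ∧ ∀ ε : ℝ, 0 < ε → ∀ L : ℕ, ∃ t K₀ : ℕ,
    ∀ K : ℕ, K₀ ≤ K → (∀ q, R * t ≤ (window (A * (Nat.log b (K + 1) + 1)) K q).card) ∧
    ∀ N : ℕ, N < b ^ K → ∀ f : ℕ → ℕ, (∀ i, f i < b ∧ f i ≠ digit b i N) →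
    ∀ r : Fin 3 → ℕ, (∀ q, t ≤ r q ∧ R * r q ≤ (window (A * (Nat.log b (K + 1) + 1)) K q).card) →
    ∀ g : Fin L → ℕ → ℂ, (∀ l n, ‖g l n‖ ≤ 1) →
      (exceptions b (A * (Nat.log b (K + 1) + 1)) K N f r (fun α => ∀ l, ∀ X : ℕ, X ≤ b ^ K →
        ‖∑ n ∈ Icc 1 X, g l n * mu (n + α)‖ ≤ ε * (b : ℝ) ^ K) : ℝ) ≤
        ε * (choices (A * (Nat.log b (K + 1) + 1)) K r).card := by
  classical
  obtain ⟨R, A, hR, hA, H⟩ := Pool.Agent.TH894.CW.final_C b hb Pool.Agent.H373R2.T7.muC Pool.Agent.W93.LM.nice_muC
  refine ⟨8 * R, 2 * A, by omega, by omega, fun ε hε L => ?_⟩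
  obtain ⟨t, K₀, h1⟩ := H ε hε L
  have hwin : ∀ K q, window (2 * A * (Nat.log b (K + 1) + 1)) K q =
      Pool.Agent.TH894.SM.Win (Pool.Agent.W93.DG.hh b A (K + 1)) (K + 1) q := by
    intro K q
    unfold window Pool.Agent.TH894.SM.Win Pool.Agent.W93.DG.hh
    rw [Nat.add_sub_cancel]
  refine ⟨t, K₀, fun K hK => ?_⟩
  obtain ⟨h2, h3⟩ := h1 K hK
  refine ⟨fun q => by rw [hwin]; exact h2 q, fun N hN f hf r hr g hg => ?_⟩
  have hun : ∀ S : Fin 3 → Finset ℕ, Pool.Agent.TH894.SM.un S = S 0 ∪ S 1 ∪ S 2 := by
    intro S
    unfold Pool.Agent.TH894.SM.un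
    ext x
    simp only [mem_biUnion, mem_univ, true_and, mem_union]
    constructor
    · rintro ⟨q, hq⟩
      have hq3 : q = 0 ∨ q = 1 ∨ q = 2 := by fin_cases q <;> simp
      rcases hq3 with rfl | rfl | rfl
      · exact Or.inl (Or.inl hq)
      · exact Or.inl (Or.inr hq)
      · exact Or.inr hq
    · rintro ((h | h) | h)
      · exact ⟨0, h⟩
      · exact ⟨1, h⟩
      · exact ⟨2, h⟩
  have hch : choices (2 * A * (Nat.log b (K + 1) + 1)) K r =
      Fintype.piFinset (fun q => powersetCard (r q) (Pool.Agent.TH894.SM.Win (Pool.Agent.W93.DG.hh b A (K + 1)) (K + 1) q)) := by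
    unfold choices
    simp only [hwin]
  have key : ∀ E : ℕ → Prop, (∀ s, ¬ E s → ∃ l, Pool.Agent.TH894.CW.Bd1 b Pool.Agent.H373R2.T7.muC ε 1 (g l) K s) →
      (exceptions b (2 * A * (Nat.log b (K + 1) + 1)) K N f r E : ℝ) ≤ ε * (choices (2 * A * (Nat.log b (K + 1) + 1)) K r).card := by
    intro E hE
    unfold exceptions
    rw [hch]
    refine (h3 N hN f hf r (fun q => ⟨(hr q).1, by rw [← hwin]; exact (hr q).2⟩) (fun _ => 1) g (fun _ => le_rfl) hg _ (filter_subset _ _) ?_).trans (le_of_eq ?_)
    · intro T hT
      rw [mem_filter] at hT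
      rw [hun T]
      exact hE _ hT.2
    · congr 1
      rw [Fintype.card_piFinset]
      push_cast
      apply prod_congr rfl
      intro q _
      rw [card_powersetCard]
  apply key
  intro s hs
  push Not at hs
  obtain ⟨l, X, hX, hbig⟩ := hs
  refine ⟨l, X, by rw [one_mul]; exact hX, lt_of_lt_of_eq hbig ?_⟩
  congr 1
  apply sum_congr rfl
  intro n hn
  rw [mem_Icc] at hn
  congr 1
  have h6 : (((1 * n : ℕ) : ℤ) + ((s : ℕ) : ℤ)) = ((n + s : ℕ) : ℤ) := by push_cast; ring
  unfold Pool.Agent.H373R2.T7.exI
  rw [h6, if_pos (by exact_mod_cast (by omega : 1 ≤ n + s)), Int.toNat_natCast]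
  rfl

end Pool.Agent.Results.MP_c59857_nt.FewDigitChanges
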