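import Pool.Agent.TH854.Odd.C

/-!
# Chowla products of the Möbius function with an odd number of exponents one: both signs have
# positive density, uniformly in all admissible shifts up to `δ N`

Method: let `I` be the set of the `i` with `ε_i = 1`. The library of the starting files
(`Pool/Agent/H376R2`, helper376) contains cubes `d_V = 1 + W (t + ∑_{i ∈ V} a_i)`, `V ⊆ I`, of pairwise
coprime squarefree numbers with `∏ μ(d_V) = -1`. There are integers `n_V` such that `d_V (n_V + α_s)`
does not change when `s ∈ I` is removed from `V` or added to `V`. If all the numbers `n_V + α_s` are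
squarefree (a squarefree sieve, uniform in the shifts), then the product of `μ(n_V + α_s)` over all
`V ⊆ I` and `s ∈ I` is `(-1)^|I| = -1`, so both signs occur among the `2^|I|` products over `s`.
-/

set_option autoImplicit false

namespace Pool.Agent.Results.MP_c59857_nt.OddOrderUniformShifts

open Finset

/-- Let `ε ∈ {1, 2}^r` have an odd number of `ε_i = 1`. There are `δ > 0` and `N₀` such that for all
`N ≥ N₀`, all integers `α_1, …, α_r` with `|α_i| ≤ δ N` which are admissible (for every prime `p` some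
integer `m` is such that `p²` divides none of the `m + α_i`; otherwise the product is always `0`)
and both signs `σ`, at least `δ N` of the integers `1 ≤ n ≤ N` satisfy
`μ(n + α_1)^{ε_1} ⋯ μ(n + α_r)^{ε_r} = σ`. Here `μ(m) = 0` for `m ≤ 0`. -/
theorem result (r : ℕ) (ε : Fin r → ℕ) (hε : ∀ i, ε i = 1 ∨ ε i = 2)
    (hodd : Odd (univ.filter fun i => ε i = 1).card) :
    ∃ δ : ℝ, 0 < δ ∧ ∃ N₀ : ℕ, ∀ N : ℕ, N₀ ≤ N → ∀ α : Fin r → ℤ,
      (∀ i, |(α i : ℝ)| ≤ δ * N) →
      (∀ p : ℕ, p.Prime → ∃ m : ℤ, ∀ i, ¬ (p : ℤ) ^ 2 ∣ m + α i) →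
      ∀ σ : ℤ, (σ = 1 ∨ σ = -1) →
      δ * N ≤ (((Icc 1 N).filter (fun n : ℕ =>
        ∏ i, ArithmeticFunction.moebius (((n : ℤ) + α i).toNat) ^ ε i = σ)).card : ℝ) :=
  Pool.Agent.TH854.Odd.mu_int r ε hε hodd

end Pool.Agent.Results.MP_c59857_nt.OddOrderUniformShifts
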