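import Pool.Agent.TH823.PS.Fin2

/-!
# Chowla's conjecture on the Möbius function for all but `N ^ (r - δ)` of the `r`-tuples of shifts, at most scales

From the starting files: the zero-free region inputs and the kernels (`Pool.Agent.W66`), the large sieve
(`Pool.Agent.Helper112`), the bounds on the minor arcs by Vaughan's identity (`Pool.Agent.W93`), the moments of
Weyl sums (`Pool.Agent.H373R2`), the Turan–Kubilius inequality (`Pool.Agent.Helper480`), Mertens' theorem.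
From Mathlib: `ArithmeticFunction.moebius`: the Möbius function; `Finset.Icc 1 X`: the integers `n` with
`1 ≤ n ≤ X`; `Fintype.piFinset fun _ : Fin r => S`: the `r`-tuples of elements of `S`;
`Polynomial ℤ`: the polynomials with integer coefficients; `f.eval m`: the value at `m`.
-/

set_option autoImplicit false

namespace Pool.Agent.Results.MP_c59857_nt.PowerSavingShifts

open Finset

/-- The Möbius function on the integers, `0` at the integers `m ≤ 0`. -/
def mu (m : ℤ) : ℤ := if 1 ≤ m then ArithmeticFunction.moebius m.toNat else 0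

/-- The additive energy of order `p` of the family `s 1, ..., s x`: the number of the solutions of
`s (v 1) + ... + s (v p) = s (w 1) + ... + s (w p)` with all `v i`, `w i` in `{1, ..., x}`. -/
def energy (p x : ℕ) (s : ℕ → ℤ) : ℕ :=
  (((Fintype.piFinset fun _ : Fin p => Icc 1 x) ×ˢ (Fintype.piFinset fun _ : Fin p => Icc 1 x)).filter
    (fun q => ∑ i, s (q.1 i) = ∑ i, s (q.2 i))).card

open Classical in
/-- The number of the elements of the finite set `S` with the property `E`. -/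
noncomputable def num {α : Type} (S : Finset α) (E : α → Prop) : ℝ := ((S.filter E).card : ℝ)

open Classical in
/-- The property `P` holds at most scales: the set of the positive integers `N` with the property `P` has upper
logarithmic density at least `1 - ε`. Precisely, for arbitrarily large `R` the sum of `1 / N` over the `N ≤ R`
without the property is at most `ε log R`. -/
def MostScales (ε : ℝ) (P : ℕ → Prop) : Prop :=
  ∀ R₀ : ℕ, ∃ R : ℕ, R₀ ≤ R ∧ ∑ N ∈ (Icc 1 R).filter (fun N => ¬ P N), (1 : ℝ) / N ≤ ε * Real.log R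

/-- The weights `g l` for the linear form `a l * n + b`: the sum of the squares over `a l * n ≤ B N` is at most
`B N`. For example all functions bounded by `1`. -/
def Weights (B L N : ℕ) (a : Fin L → ℕ) (g : Fin L → ℕ → ℂ) : Prop :=
  (∀ l, 1 ≤ a l) ∧ ∀ l, ∑ n ∈ Icc 1 (B * N / a l), ‖g l n‖ ^ 2 ≤ B * N

/-- The shift `b` is good: all the partial sums up to `B N / a l` of `g l n * μ (a l * n + b)` are at most
`ε N`, for all `l < L`. -/
def GoodShift (B L N : ℕ) (ε : ℝ) (a : Fin L → ℕ) (g : Fin L → ℕ → ℂ) (b : ℤ) : Prop :=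
  ∀ l, ∀ X : ℕ, a l * X ≤ B * N → ‖∑ n ∈ Icc 1 X, g l n * (mu (a l * n + b) : ℂ)‖ ≤ ε * N

/-- At the scale `N`, for all the families of integers in `[-B N, B N]` with an additive energy of order `p` of
at most `N ^ δ` times the minimal possible size `x ^ (2 p) / N` and for all weights, the shifts `b = s m` are good
for all but `x / N ^ δ` of the `m ≤ x`. -/
def Families (B L p : ℕ) (ε δ : ℝ) (N : ℕ) : Prop :=
  ∀ (x : ℕ) (s : ℕ → ℤ), (∀ m ∈ Icc 1 x, |s m| ≤ B * N) →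
    (energy p x s : ℝ) * N ≤ (N : ℝ) ^ δ * (x : ℝ) ^ (2 * p) →
    ∀ (a : Fin L → ℕ) (g : Fin L → ℕ → ℂ), Weights B L N a g →
      num (Icc 1 x) (fun m => ¬ GoodShift B L N ε a g (s m)) ≤ x * (N : ℝ) ^ (-δ)

/-- At the scale `N`, for all `x` with `N ^ (1 - δ) ≤ x ^ d ≤ B N`, where `d` is the degree of the polynomial `f`,
for all the translations by `c` in `[-B N, B N]` and for all weights, the shifts `b = c + f m` are good for all but
`x / N ^ δ` of the `m ≤ x`. -/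
def Polynomials (B L : ℕ) (f : Polynomial ℤ) (ε δ : ℝ) (N : ℕ) : Prop :=
  ∀ x : ℕ, x ^ f.natDegree ≤ B * N → (N : ℝ) ^ (1 - δ) ≤ (x : ℝ) ^ f.natDegree → ∀ c : ℤ, |c| ≤ B * N →
    ∀ (a : Fin L → ℕ) (g : Fin L → ℕ → ℂ), Weights B L N a g →
      num (Icc 1 x) (fun m => ¬ GoodShift B L N ε a g (c + f.eval (m : ℤ))) ≤ x * (N : ℝ) ^ (-δ)

/-- At the scale `N`, all but `N ^ (r - δ)` of the `r`-tuples `α` of integers in `{-N, ..., N}` have the property
that `|∑ n ≤ X, μ (n + α 1) ^ (e 1) ⋯ μ (n + α r) ^ (e r)| ≤ ε N` for all `X ≤ N` and for all the exponents `e i` in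
`{1, 2}`, not all of them equal to `2`. Here `r = k + 1`. -/
def Tuples (k : ℕ) (ε δ : ℝ) (N : ℕ) : Prop :=
  num (Fintype.piFinset fun _ : Fin (k + 1) => Icc (-(N : ℤ)) N) (fun α =>
    ¬ ∀ e : Fin (k + 1) → ℕ, (∀ i, e i = 1 ∨ e i = 2) → (∃ i, e i = 1) → ∀ X : ℕ, X ≤ N →
      |((∑ n ∈ Icc 1 X, ∏ i, mu (n + α i) ^ e i : ℤ) : ℝ)| ≤ ε * N) ≤ (N : ℝ) ^ ((k : ℝ) + 1 - δ)

lemma mu_eq (m : ℤ) : (mu m : ℂ) = Pool.Agent.H373R2.T7.exI Pool.Agent.H373R2.T7.muC m := by
  unfold mu Pool.Agent.H373R2.T7.exI Pool.Agent.H373R2.T7.muC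
  split_ifs <;> simp

lemma mu_abs (m : ℤ) : |mu m| ≤ 1 := by
  unfold mu
  split_ifs
  · exact ArithmeticFunction.abs_moebius_le_one
  · simp

lemma most_of {ε : ℝ} {P : ℕ → Prop} (h : Pool.Agent.TH823.PS.Most ε P) : MostScales ε P := h

lemma good_eq {B L N : ℕ} {ε : ℝ} {a : Fin L → ℕ} {g : Fin L → ℕ → ℂ} {b : ℤ}
    (h : ∀ l, ∀ X : ℕ, a l * X ≤ B * N → ‖∑ n ∈ Icc 1 X, g l n *
      Pool.Agent.H373R2.T7.exI Pool.Agent.H373R2.T7.muC (a l * n + b)‖ ≤ ε * N) :
    GoodShift B L N ε a g b := by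
  intro l X hX
  have h1 := h l X hX
  simpa only [mu_eq] using h1

lemma num_le {α : Type} {S : Finset α} {E E' : α → Prop} {hd : DecidablePred E'} {T : ℝ}
    (h : ∀ m ∈ S, E m → E' m) (h1 : ((S.filter E').card : ℝ) ≤ T) : num S E ≤ T := by
  classical
  refine le_trans ?_ h1
  unfold num
  apply Nat.cast_le.2
  apply card_le_card
  intro m hm
  rw [mem_filter] at hm ⊢
  exact ⟨hm.1, h m hm.1 hm.2⟩

lemma num_le_sum {α β : Type} {S : Finset α} {E : α → Prop} (Es : Finset β) {F : β → α → Prop}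
    (h : ∀ a ∈ S, E a → ∃ e ∈ Es, F e a) : num S E ≤ ∑ e ∈ Es, num S (F e) := by
  classical
  unfold num
  rw [← Nat.cast_sum]
  apply Nat.cast_le.2
  refine le_trans ?_ card_biUnion_le
  apply card_le_card
  intro a ha
  rw [mem_filter] at ha
  obtain ⟨e, he, hF⟩ := h a ha.1 ha.2
  rw [mem_biUnion]
  exact ⟨e, he, mem_filter.2 ⟨ha.1, hF⟩⟩

lemma families_of {B L p : ℕ} {ε δ : ℝ} {N : ℕ}
    (h : Pool.Agent.TH823.PS.GoodF Pool.Agent.H373R2.T7.muC B L p ε δ N) : Families B L p ε δ N := by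
  classical
  intro x s hs hE a g hg
  exact num_le (fun m _ hm hcon => hm (good_eq hcon)) (h x s hs hE a g hg.1 hg.2)

lemma polys_of {B L : ℕ} {f : Polynomial ℤ} {ε δ : ℝ} {N : ℕ}
    (h : Pool.Agent.TH823.PS.PolyG Pool.Agent.H373R2.T7.muC B L f ε δ N) : Polynomials B L f ε δ N := by
  classical
  intro x hx1 hx2 c hc a g hg
  exact num_le (fun m _ hm hcon => hm (good_eq hcon)) (h x hx1 hx2 c hc a g hg.1 hg.2)

/-- one choice of the exponents -/
lemma tuples_one {k : ℕ} {ε δ : ℝ} {N : ℕ} (hN : 1 ≤ N) (hδ : 0 ≤ δ)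
    (h : Pool.Agent.TH823.PS.GoodF Pool.Agent.H373R2.T7.muC 1 1 1 ε δ N) (e : Fin (k + 1) → ℕ) (i₀ : Fin (k + 1))
    (he : e i₀ = 1) :
    num (Fintype.piFinset fun _ : Fin (k + 1) => Icc (-(N : ℤ)) N) (fun α => ¬ ∀ X : ℕ, X ≤ N →
      |((∑ n ∈ Icc 1 X, ∏ i, mu (n + α i) ^ e i : ℤ) : ℝ)| ≤ ε * N) ≤
      (3 * (N : ℝ)) ^ (k + 1) * (N : ℝ) ^ (-δ) := by
  classical
  have hN1 : (1 : ℝ) ≤ N := by exact_mod_cast hN
  have hN0 : (0 : ℝ) < N := by linarith
  have hcard : (Icc (-(N : ℤ)) N).card = 2 * N + 1 := by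
    rw [Int.card_Icc]; omega
  have h1 := Pool.Agent.TH823.PS.tuple_count (k := k) i₀ (Icc (-(N : ℤ)) N) (fun α => ¬ ∀ X : ℕ, X ≤ N →
      |((∑ n ∈ Icc 1 X, ∏ i, mu (n + α i) ^ e i : ℤ) : ℝ)| ≤ ε * N)
    (T := ((2 * N + 1 : ℕ) : ℝ) * (N : ℝ) ^ (-δ)) (by
      intro b _
      have h2 := h (2 * N + 1) (fun m => (m : ℤ) - N - 1) (by
          intro m hm
          rw [mem_Icc] at hm
          rw [abs_le]
          push_cast
          omega) (by
          have h3 : Pool.Agent.H373R2.T7.energy 1 (2 * N + 1) (fun m => (m : ℤ) - N - 1) ≤ 2 * N + 1 :=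
            Pool.Agent.TH823.PS.energy_one (fun m n hmn => by simpa using hmn)
          have h4 : (Pool.Agent.H373R2.T7.energy 1 (2 * N + 1) (fun m => (m : ℤ) - N - 1) : ℝ) ≤
              ((2 * N + 1 : ℕ) : ℝ) := by exact_mod_cast h3
          have h5 : 1 ≤ (N : ℝ) ^ δ := Real.one_le_rpow hN1 hδ
          have h6 : (N : ℝ) ≤ ((2 * N + 1 : ℕ) : ℝ) := by push_cast; linarith
          calc (Pool.Agent.H373R2.T7.energy 1 (2 * N + 1) (fun m => (m : ℤ) - N - 1) : ℝ) * N ≤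
                ((2 * N + 1 : ℕ) : ℝ) * ((2 * N + 1 : ℕ) : ℝ) :=
                mul_le_mul h4 h6 hN0.le (Nat.cast_nonneg _)
            _ = 1 * ((2 * N + 1 : ℕ) : ℝ) ^ (2 * 1) := by ring
            _ ≤ (N : ℝ) ^ δ * ((2 * N + 1 : ℕ) : ℝ) ^ (2 * 1) :=
                mul_le_mul_of_nonneg_right h5 (by positivity))
        (fun _ => 1) (fun _ n => ((∏ i : Fin k, mu (n + b i) ^ e (i₀.succAbove i) : ℤ) : ℂ))
        (fun _ => le_rfl) (by
          intro _
          have h3 : ∀ n : ℕ, ‖((∏ i : Fin k, mu (n + b i) ^ e (i₀.succAbove i) : ℤ) : ℂ)‖ ^ 2 ≤ 1 := by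
            intro n
            have h4 : |∏ i : Fin k, mu (n + b i) ^ e (i₀.succAbove i)| ≤ 1 := by
              rw [abs_prod]
              refine prod_le_one (fun _ _ => abs_nonneg _) fun i _ => ?_
              rw [abs_pow]
              exact pow_le_one₀ (abs_nonneg _) (mu_abs _)
            have h5 : ‖((∏ i : Fin k, mu (n + b i) ^ e (i₀.succAbove i) : ℤ) : ℂ)‖ ≤ 1 := by
              rw [Complex.norm_intCast]
              exact_mod_cast h4
            exact pow_le_one₀ (norm_nonneg _) h5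
          refine (sum_le_sum fun n _ => h3 n).trans ?_
          rw [sum_const, Nat.card_Icc, nsmul_eq_mul, mul_one, Nat.add_sub_cancel]
          exact_mod_cast Nat.div_le_self _ _)
      have h2' : (((Icc 1 (2 * N + 1)).filter (fun m : ℕ => ¬ ∀ l : Fin 1, ∀ X : ℕ, 1 * X ≤ 1 * N →
          ‖∑ n ∈ Icc 1 X, ((∏ i : Fin k, mu (n + b i) ^ e (i₀.succAbove i) : ℤ) : ℂ) *
            Pool.Agent.H373R2.T7.exI Pool.Agent.H373R2.T7.muC ((1 : ℕ) * n + ((m : ℤ) - N - 1))‖ ≤ ε * N)).card : ℝ) ≤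
          ((2 * N + 1 : ℕ) : ℝ) * (N : ℝ) ^ (-δ) := h2
      refine le_trans ?_ h2'
      apply Nat.cast_le.2
      apply card_le_card_of_injOn (fun α : ℤ => (α + N + 1).toNat)
      · intro α hα
        rw [mem_coe, mem_filter] at hα ⊢
        have hα1 := mem_Icc.1 hα.1
        have hα2 : (((α + N + 1).toNat : ℕ) : ℤ) = α + N + 1 := Int.toNat_of_nonneg (by omega)
        have hα3 : 1 ≤ (α + N + 1).toNat ∧ (α + N + 1).toNat ≤ 2 * N + 1 := by omega
        refine ⟨mem_Icc.2 hα3, fun hcon => hα.2 fun X hX => ?_⟩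
        have h3 := hcon 0 X (by simpa using hX)
        have h4 : ∑ n ∈ Icc 1 X, ((∏ i : Fin k, mu (n + b i) ^ e (i₀.succAbove i) : ℤ) : ℂ) *
            Pool.Agent.H373R2.T7.exI Pool.Agent.H373R2.T7.muC
              (((1 : ℕ) : ℤ) * n + ((((α + N + 1).toNat : ℕ) : ℤ) - N - 1)) =
            (((∑ n ∈ Icc 1 X, ∏ i, mu (n + (Fin.insertNth (α := fun _ => ℤ) i₀ α b : Fin (k + 1) → ℤ) i) ^ e i : ℤ) : ℝ) : ℂ) := by
          push_cast
          apply sum_congr rfl
          intro n _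
          rw [Fin.prod_univ_succAbove _ i₀]
          simp only [Fin.insertNth_apply_same, Fin.insertNth_apply_succAbove]
          rw [← mu_eq, he, pow_one, mul_comm]
          congr 3
          rw [hα2]
          ring
        rw [h4, Complex.norm_real, Real.norm_eq_abs] at h3
        exact h3
      · intro α hα β hβ hαβ
        rw [mem_coe, mem_filter, mem_Icc] at hα hβ
        have h5 : (α + N + 1).toNat = (β + N + 1).toNat := hαβ
        omega)
  have h2 : num (Fintype.piFinset fun _ : Fin (k + 1) => Icc (-(N : ℤ)) N) (fun α => ¬ ∀ X : ℕ, X ≤ N →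
      |((∑ n ∈ Icc 1 X, ∏ i, mu (n + α i) ^ e i : ℤ) : ℝ)| ≤ ε * N) ≤
      ((Icc (-(N : ℤ)) N).card : ℝ) ^ k * (((2 * N + 1 : ℕ) : ℝ) * (N : ℝ) ^ (-δ)) :=
    num_le (fun m _ hm => hm) h1
  refine h2.trans ?_
  rw [hcard, ← mul_assoc, ← pow_succ]
  apply mul_le_mul_of_nonneg_right _ (by positivity)
  apply pow_le_pow_left₀ (by positivity)
  push_cast
  linarith

lemma tuples_of {k : ℕ} {ε δ : ℝ} {N : ℕ} (hN : 1 ≤ N) (hδ : 0 < δ) (hN2 : (6 : ℝ) ^ (k + 1) ≤ (N : ℝ) ^ (δ / 2))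
    (h : Pool.Agent.TH823.PS.GoodF Pool.Agent.H373R2.T7.muC 1 1 1 ε δ N) : Tuples k ε (δ / 2) N := by
  classical
  have hN1 : (1 : ℝ) ≤ N := by exact_mod_cast hN
  have hN0 : (0 : ℝ) < N := by linarith
  set Es := (Fintype.piFinset fun _ : Fin (k + 1) => ({1, 2} : Finset ℕ)).filter (fun e => ∃ i, e i = 1) with hEs
  have hcardE : (Es.card : ℝ) ≤ 2 ^ (k + 1) := by
    have h1 : Es.card ≤ 2 ^ (k + 1) := by
      refine (card_filter_le _ _).trans ?_
      rw [Fintype.card_piFinset, prod_const, card_univ, Fintype.card_fin]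
      rfl
    exact_mod_cast h1
  unfold Tuples
  have h1 : num (Fintype.piFinset fun _ : Fin (k + 1) => Icc (-(N : ℤ)) N) (fun α =>
      ¬ ∀ e : Fin (k + 1) → ℕ, (∀ i, e i = 1 ∨ e i = 2) → (∃ i, e i = 1) → ∀ X : ℕ, X ≤ N →
        |((∑ n ∈ Icc 1 X, ∏ i, mu (n + α i) ^ e i : ℤ) : ℝ)| ≤ ε * N) ≤
      ∑ e ∈ Es, num (Fintype.piFinset fun _ : Fin (k + 1) => Icc (-(N : ℤ)) N) (fun α => ¬ ∀ X : ℕ, X ≤ N →
        |((∑ n ∈ Icc 1 X, ∏ i, mu (n + α i) ^ e i : ℤ) : ℝ)| ≤ ε * N) := by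
    apply num_le_sum
    intro α _ hα2
    by_contra hcon
    apply hα2
    intro e he1 he2 X hX
    by_contra hα3
    apply hcon
    refine ⟨e, ?_, fun h4 => hα3 (h4 X hX)⟩
    rw [hEs, mem_filter, Fintype.mem_piFinset]
    refine ⟨fun i => ?_, he2⟩
    rw [mem_insert, mem_singleton]
    exact he1 i
  refine h1.trans ?_
  have h2 : ∀ e ∈ Es, num (Fintype.piFinset fun _ : Fin (k + 1) => Icc (-(N : ℤ)) N) (fun α => ¬ ∀ X : ℕ, X ≤ N →
      |((∑ n ∈ Icc 1 X, ∏ i, mu (n + α i) ^ e i : ℤ) : ℝ)| ≤ ε * N) ≤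
      (3 * (N : ℝ)) ^ (k + 1) * (N : ℝ) ^ (-δ) := by
    intro e he
    rw [hEs, mem_filter] at he
    obtain ⟨i₀, hi⟩ := he.2
    exact tuples_one hN hδ.le h e i₀ hi
  refine (sum_le_sum h2).trans ?_
  rw [sum_const, nsmul_eq_mul]
  have h3 : (N : ℝ) ^ (δ / 2) * (N : ℝ) ^ (-δ) = (N : ℝ) ^ (-(δ / 2)) := by
    rw [← Real.rpow_add hN0]; congr 1; ring
  calc (Es.card : ℝ) * ((3 * (N : ℝ)) ^ (k + 1) * (N : ℝ) ^ (-δ)) ≤
        2 ^ (k + 1) * ((3 * (N : ℝ)) ^ (k + 1) * (N : ℝ) ^ (-δ)) :=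
        mul_le_mul_of_nonneg_right hcardE (by positivity)
    _ = 6 ^ (k + 1) * ((N : ℝ) ^ (k + 1) * (N : ℝ) ^ (-δ)) := by
        rw [mul_pow, ← mul_assoc, ← mul_assoc, ← mul_pow]; norm_num; ring
    _ ≤ (N : ℝ) ^ (δ / 2) * ((N : ℝ) ^ (k + 1) * (N : ℝ) ^ (-δ)) :=
        mul_le_mul_of_nonneg_right hN2 (by positivity)
    _ = (N : ℝ) ^ (k + 1) * (N : ℝ) ^ (-(δ / 2)) := by rw [← h3]; ring
    _ = (N : ℝ) ^ ((k : ℝ) + 1 - δ / 2) := by
        rw [← Real.rpow_natCast, ← Real.rpow_add hN0]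
        congr 1
        push_cast
        ring

/-- Let `B`, `L` be positive integers and let `ε > 0`. There is a `δ > 0`, depending on the fixed data only, such
that the following holds at most scales `N`, that is on a set of `N` of upper logarithmic density at least `1 - ε`.

* Arbitrary families of shifts in `[-B N, B N]` of nearly minimal energy of order `p`: for all but `x / N ^ δ` of
  the `x` members `b`, `|∑ n ≤ X, g l n * μ (a l * n + b)| ≤ ε N` for all `l < L` and `X ≤ B N / a l`. The weights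
  `g l` are arbitrary (bounded by `1`, or in mean square), e.g. products of values of `μ`, `μ ^ 2` at other linear
  forms. For example (`p = 1`) all subsets of `[-B N, B N]` with at least `N ^ (1 - δ)` elements.
* Polynomial values: the same holds for the shifts `b = c + f m`, `m ≤ x`, with `N ^ (1 - δ) ≤ x ^ d ≤ B N`.
* The sums of Chowla's conjecture: for `r = k + 1` and for all but `N ^ (r - δ)` of the tuples `α` in
  `{-N, ..., N} ^ r`, `|∑ n ≤ X, μ (n + α 1) ^ (e 1) ⋯ μ (n + α r) ^ (e r)| ≤ ε N` for all `X ≤ N` and for all the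
  exponents `e i` in `{1, 2}` that are not all equal to `2`. -/
theorem result (B L : ℕ) (ε : ℝ) (hε : 0 < ε) :
    (∀ p : ℕ, 1 ≤ p → ∃ δ : ℝ, 0 < δ ∧ MostScales ε (Families B L p ε δ)) ∧
    (∀ f : Polynomial ℤ, 1 ≤ f.natDegree → ∃ δ : ℝ, 0 < δ ∧ MostScales ε (Polynomials B L f ε δ)) ∧
    (∀ k : ℕ, ∃ δ : ℝ, 0 < δ ∧ MostScales ε (Tuples k ε δ)) := by
  classical
  refine ⟨fun p hp => ?_, fun f hf => ?_, fun k => ?_⟩
  · obtain ⟨δ, hδ, h⟩ := Pool.Agent.TH823.PS.most_good Pool.Agent.TH823.PS.nice_muC B L p hp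
      (ε := ε / 2) (by positivity)
    refine ⟨δ, hδ, most_of (Pool.Agent.TH823.PS.most_mono hε h (N₁ := 1) fun N hN h1 => ?_)⟩
    exact families_of (Pool.Agent.TH823.PS.good_anti hN (by linarith) le_rfl h1)
  · obtain ⟨δ, hδ, h⟩ := Pool.Agent.TH823.PS.most_poly Pool.Agent.TH823.PS.nice_muC B L f hf hε
    refine ⟨δ, hδ, most_of fun R₀ => ?_⟩
    obtain ⟨R, hR, h1⟩ := h R₀
    refine ⟨R, hR, le_trans ?_ h1⟩
    apply sum_le_sum_of_subset_of_nonneg
    · intro N hN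
      rw [mem_filter] at hN ⊢
      exact ⟨hN.1, fun h2 => hN.2 (polys_of h2)⟩
    · intro _ _ _; positivity
  · obtain ⟨δ, hδ, h⟩ := Pool.Agent.TH823.PS.most_good Pool.Agent.TH823.PS.nice_muC 1 1 1 le_rfl
      (ε := ε / 2) (by positivity)
    obtain ⟨N₁, hN₁⟩ : ∃ N₁ : ℕ, ∀ N : ℕ, N₁ ≤ N → (6 : ℝ) ^ (k + 1) ≤ (N : ℝ) ^ (δ / 2) := by
      have h1 : Filter.Tendsto (fun N : ℕ => (N : ℝ) ^ (δ / 2)) Filter.atTop Filter.atTop :=
        (tendsto_rpow_atTop (by positivity)).comp tendsto_natCast_atTop_atTop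
      obtain ⟨N₁, h2⟩ := Filter.eventually_atTop.1 (h1.eventually_ge_atTop ((6 : ℝ) ^ (k + 1)))
      exact ⟨N₁, h2⟩
    refine ⟨δ / 2, by positivity, most_of (Pool.Agent.TH823.PS.most_mono hε h (N₁ := max 1 N₁) fun N hN h1 => ?_)⟩
    exact tuples_of (le_of_max_le_left hN) hδ (hN₁ N (le_of_max_le_right hN))
      (Pool.Agent.TH823.PS.good_anti (le_of_max_le_left hN) (by linarith) le_rfl h1)

end Pool.Agent.Results.MP_c59857_nt.PowerSavingShifts
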