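import Pool.Agent.TH327.Dim.Exist
import Pool.Agent.TH327.Dim.Meas2
import Pool.Agent.TH327.Dim.Inst

/-! Correlations of the Moebius function, as functions of one shift, are the Fourier coefficients of measures
which vanish on all sets of packing dimension less than one half. -/

set_option autoImplicit false

open Filter Topology MeasureTheory Finset

namespace Pool.Agent.Results.MP_c59857_nt.SpectralDimension

/-- The Möbius function extended by zero to the integers. -/
noncomputable def mu (m : ℤ) : ℂ := ((ArithmeticFunction.moebius m.toNat : ℤ) : ℂ)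

/-- The set `K` in `ℝ/ℤ` has upper box dimension less than one half: for some `C` and some `s < 1/2`, for each
`n ≥ 1` it is covered by at most `C n ^ s` arcs of radius `1 / n`. -/
def SmallBoxDim (K : Set UnitAddCircle) : Prop :=
  ∃ C s : ℝ, s < 1 / 2 ∧ ∀ n : ℕ, 1 ≤ n → ∃ F : Finset UnitAddCircle, (F.card : ℝ) ≤ C * (n : ℝ) ^ s ∧
    ∀ x ∈ K, ∃ y ∈ F, ‖x - y‖ ≤ 1 / n

/-- The sequence `c` consists of the Fourier coefficients of the complex measure `w σ`, where `σ` is a finite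
positive Borel measure on `ℝ/ℤ` and `w` is `σ`-integrable: `c h = ∫ exp (2 π i h θ) w(θ) dσ(θ)`. -/
def Represents (σ : Measure UnitAddCircle) (w : UnitAddCircle → ℂ) (c : ℤ → ℂ) : Prop :=
  IsFiniteMeasure σ ∧ Integrable w σ ∧ ∀ h : ℤ, c h = ∫ θ, fourier h θ * w θ ∂σ

lemma mu_eq (m : ℤ) : mu m = Pool.Agent.TH327.Dim.muf m.toNat := rfl

lemma muf_zero : Pool.Agent.TH327.Dim.muf 0 = 0 := by
  unfold Pool.Agent.TH327.Dim.muf
  simp

lemma muf_conj (n : ℕ) : (starRingEnd ℂ) (Pool.Agent.TH327.Dim.muf n) = Pool.Agent.TH327.Dim.muf n := by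
  unfold Pool.Agent.TH327.Dim.muf
  exact map_intCast _ _

open Pool.Agent.TH327.Dim in
/-- **Spectral dimension of the Möbius function.** Let `g` be a bounded sequence, for example a product of values
`μ(n + α_i) ^ ε_i`, and let `N_j → ∞` be such that the correlations
`c h = lim (1/N_j) ∑_{n ≤ N_j} g(n) μ(n + h)` exist for all integers `h`. Then `c` is the sequence of the Fourier
coefficients of a complex measure on the circle, and each such measure vanishes on each set which is a countable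
union of sets of upper box dimension less than one half (the density is zero almost everywhere there). -/
theorem result (g : ℕ → ℂ) (B : ℝ) (hg : ∀ n, ‖g n‖ ≤ B) (N : ℕ → ℕ) (hN : Tendsto N atTop atTop) (c : ℤ → ℂ)
    (hc : ∀ h : ℤ, Tendsto (fun j => (1 / (N j : ℂ)) * ∑ n ∈ Icc 1 (N j), g n * mu (n + h)) atTop (𝓝 (c h))) :
    (∃ σ w, Represents σ w c) ∧
    ∀ σ w, Represents σ w c → ∀ K : ℕ → Set UnitAddCircle, (∀ i, SmallBoxDim (K i)) →
      ∀ᵐ θ ∂σ, θ ∈ ⋃ i, K i → w θ = 0 := by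
  constructor
  · obtain ⟨σ, w, h1, h2, h3⟩ := exists_rep muf g muf_zero muf_le muf_conj B hg N hN c hc
    exact ⟨σ, w, h1, h2, h3⟩
  · rintro σ w ⟨h1, h2, h3⟩ K hK
    refine small_null (h := muf) (g := g) (B := B) (N := N) muf_zero muf_le muf_conj hg hN h2 (fun k => ?_) ?_
      (A := ⋃ i, K i) (K := K) subset_rfl (fun i => ?_)
    · have := hc k
      rw [h3 k] at this
      exact this
    · intro C s hC hs0 hs
      exact good_mob hC hs0 hs
    · obtain ⟨C, s, hs, h4⟩ := hK i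
      exact ⟨C, s, hs, h4⟩

/-! ### The uniform finite form (not part of `result`) -/

open Pool.Agent.TH327.Dim in
/-- Uniformly over all sets `K` with covering numbers at most `C n ^ s`, where `s < 1/2`, and over all large `N`,
the mass which `|∑_{n ≤ N} μ(n) e(nθ)|² dθ / N` gives to the `ρ`-neighbourhood of `K` is at most `ε`. -/
theorem uniform_form (C s : ℝ) (hC : 0 ≤ C) (hs0 : 0 ≤ s) (hs : s < 1 / 2) (ε : ℝ) (hε : 0 < ε) :
    ∃ ρ : ℝ, 0 < ρ ∧ ∃ N₀ : ℕ, ∀ K : Set UnitAddCircle,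
      (∀ n : ℕ, 1 ≤ n → ∃ F : Finset UnitAddCircle, (F.card : ℝ) ≤ C * (n : ℝ) ^ s ∧ ∀ x ∈ K, ∃ y ∈ F, ‖x - y‖ ≤ 1 / n) →
      ∀ N : ℕ, N₀ ≤ N → ∫ θ in (0 : ℝ)..1, Set.indicator {θ : ℝ | ∃ x ∈ K, ‖((θ : ℝ) : UnitAddCircle) - x‖ < ρ}
        (fun _ => (1 : ℝ)) θ * ‖∑ n ∈ Icc 1 N, ((ArithmeticFunction.moebius n : ℤ) : ℂ) *
          Complex.exp (2 * Real.pi * Complex.I * (n * θ : ℝ))‖ ^ 2 ≤ ε * N := by
  obtain ⟨ρ, hρ, N0, h⟩ := good_mob hC hs0 hs ε hε
  exact ⟨ρ, hρ, N0, fun K hK N hN => h K hK muf rfl N hN⟩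

end Pool.Agent.Results.MP_c59857_nt.SpectralDimension
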